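import Mathlib
import Pool.Agent.H26.RG0

set_option autoImplicit false

open Filter Topology
open scoped ENNReal

namespace Pool.Agent.Results.MP_ec348e_an.Example

open H26 RG0

noncomputable def conv {G : Type} [Group G] (a b : G → ℂ) (x : G) : ℂ :=
  ∑' y, a y * b (y⁻¹ * x)

noncomputable def cpow {G : Type} [Group G] (μ : G → ℂ) : ℕ → G → ℂ
  | 0 => μ
  | k + 1 => conv μ (cpow μ k)

noncomputable def ces {G : Type} [Group G] (μ : G → ℂ) (n : ℕ) (x : G) : ℂ :=
  (n : ℂ)⁻¹ * ∑ k ∈ Finset.range n, cpow μ k x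

def VagueErgodic {G : Type} [Group G] (μ : G → ℂ) : Prop :=
  ∃ ν : G → ℂ, Summable (fun x => ‖ν x‖) ∧ ∀ f : G → ℂ, Tendsto f cofinite (𝓝 0) →
    Tendsto (fun n => ∑' x, f x * ces μ n x) atTop (𝓝 (∑' x, f x * ν x))

def MeanErgodic {E : Type} [NormedAddCommGroup E] [NormedSpace ℂ E] (T : E →L[ℂ] E) : Prop :=
  ∃ P : E →L[ℂ] E, ∀ f : E,
    Tendsto (fun n : ℕ => (n : ℂ)⁻¹ • ∑ k ∈ Finset.range n, (T ^ (k + 1)) f) atTop (𝓝 (P f))

abbrev L (G : Type) (p : ℝ≥0∞) : Type := lp (fun _ : G => ℂ) p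

def IsConv {G : Type} [Group G] (μ : G → ℂ) {p : ℝ≥0∞} (T : L G p → L G p) : Prop :=
  ∀ (f : L G p) (x : G), T f x = conv μ f x

def NotME {G : Type} [Group G] (μ : G → ℂ) (p : ℝ≥0∞) [Fact (1 ≤ p)] : Prop :=
  ∀ T : L G p →L[ℂ] L G p, IsConv μ T → ¬ MeanErgodic T

def HasConv {G : Type} [Group G] (μ : G → ℂ) (p : ℝ≥0∞) [Fact (1 ≤ p)] : Prop :=
  ∃ T : L G p →L[ℂ] L G p, IsConv μ T

abbrev G : Type := Multiplicative ℤ × Equiv.Perm (Fin 3)

abbrev A : Type := MonoidAlgebra ℂ G

noncomputable def a (j : ℤ) (σ : Equiv.Perm (Fin 3)) : A :=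
  MonoidAlgebra.single (Multiplicative.ofAdd j, σ) 1

lemma a_mul (j i : ℤ) (σ τ : Equiv.Perm (Fin 3)) : a j σ * a i τ = a (j + i) (σ * τ) := by
  simp [a, MonoidAlgebra.single_mul_single, ofAdd_add]

def s : Equiv.Perm (Fin 3) := Equiv.swap 0 1

def t : Equiv.Perm (Fin 3) := Equiv.swap 1 2

noncomputable def V : A := a 1 1

noncomputable def N : A := (1 - a 0 s) * a 0 t * (1 + a 0 s)

lemma a_one : a 0 1 = 1 := rfl

lemma V_pow (k : ℕ) : V ^ k = a k 1 := by
  induction k with
  | zero => rfl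
  | succ k ih => rw [pow_succ, ih, V, a_mul]; simp

lemma V_a (σ : Equiv.Perm (Fin 3)) : Commute V (a 0 σ) := by
  simp [Commute, SemiconjBy, V, a_mul]

lemma V_N : Commute V N :=
  (((Commute.one_right V).sub_right (V_a s)).mul_right (V_a t)).mul_right
    ((Commute.one_right V).add_right (V_a s))

lemma N_sq : N * N = 0 := by
  have h : (1 + a 0 s) * (1 - a 0 s) = 0 := by
    have : a 0 s * a 0 s = 1 := by
      rw [a_mul, add_zero, show s * s = 1 from Equiv.swap_mul_self _ _, a_one]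
    rw [add_mul, mul_sub, mul_sub, this]
    simp
  have : N * N = (1 - a 0 s) * a 0 t * ((1 + a 0 s) * (1 - a 0 s)) * a 0 t * (1 + a 0 s) := by
    simp only [N, mul_assoc]
  rw [this, h]
  simp

lemma VN (k : ℕ) : V ^ k * N = a k t + a k (t * s) - a k (s * t) - a k (s * t * s) := by
  simp only [V_pow, N, mul_add, mul_sub, sub_mul, add_mul, a_mul, mul_one, one_mul, add_zero]
  abel

noncomputable def m : A := V + (V - 1) * N

lemma m_pow (k : ℕ) : m ^ (k + 1) = V ^ (k + 1) + (k + 1 : ℂ) • (V ^ k * (V - 1) * N) := by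
  induction k with
  | zero => simp [m]
  | succ k ih =>
    have h1 : N * V = V * N := V_N.eq.symm
    have h2 : N * ((V - 1) * N) = 0 := by
      rw [← mul_assoc, mul_sub, h1, mul_one, sub_mul, mul_assoc, N_sq]; simp
    have h3 : V ^ k * (V - 1) * N * V = V ^ (k + 1) * (V - 1) * N := by
      rw [mul_assoc _ N, h1, ← mul_assoc]
      congr 1
      simp only [mul_sub, sub_mul, mul_one, pow_succ]
    rw [pow_succ, ih, m]
    simp only [mul_add, add_mul, smul_mul_assoc, mul_assoc _ N, h2, mul_zero, smul_zero, add_zero]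
    rw [← mul_assoc _ N, h3, ← pow_succ, ← mul_assoc]
    push_cast
    module

lemma m_sum (n : ℕ) : ∑ k ∈ Finset.range n, m ^ (k + 1) = ∑ k ∈ Finset.range n, V ^ (k + 1) +
    ((n : ℂ) • (V ^ n * N) - ∑ k ∈ Finset.range n, V ^ k * N) := by
  induction n with
  | zero => simp
  | succ n ih =>
    rw [Finset.sum_range_succ, ih]
    simp only [Finset.sum_range_succ, m_pow, mul_sub, sub_mul, mul_one, ← pow_succ]
    push_cast
    module

lemma conv_eq (x y : A) : conv x.coeff y.coeff = (x * y).coeff := by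
  funext g
  rw [conv, MonoidAlgebra.coeff_mul_apply_left, Finsupp.sum]
  exact tsum_eq_sum fun b hb => by rw [Finsupp.notMem_support_iff.1 hb, zero_mul]

lemma cpow_eq (x : A) (k : ℕ) : cpow x.coeff k = (x ^ (k + 1)).coeff := by
  induction k with
  | zero => simp [cpow]
  | succ k ih => rw [cpow, ih, conv_eq, ← pow_succ']

noncomputable def pr (f : G → ℂ) : A →ₗ[ℂ] ℂ :=
  (Finsupp.linearCombination ℂ f).comp (MonoidAlgebra.coeffLinearEquiv ℂ).toLinearMap

lemma pr_eq (f : G → ℂ) (x : A) : ∑' g, f g * x.coeff g = pr f x := by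
  rw [tsum_eq_sum (s := x.coeff.support) fun b hb => by
    rw [Finsupp.notMem_support_iff.1 hb, mul_zero]]
  simp [pr, Finsupp.linearCombination_apply, Finsupp.sum, mul_comm]

lemma pr_a (f : G → ℂ) (j : ℤ) (σ : Equiv.Perm (Fin 3)) :
    pr f (a j σ) = f (Multiplicative.ofAdd j, σ) := by
  simp [pr, a]

lemma ces_eq (n : ℕ) : ces m.coeff n = ((n : ℂ)⁻¹ • ∑ k ∈ Finset.range n, m ^ (k + 1)).coeff := by
  funext g
  simp [ces, cpow_eq, MonoidAlgebra.coeff_sum]

lemma vag (f : G → ℂ) (hf : Tendsto f cofinite (𝓝 0)) :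
    Tendsto (fun n => ∑' x, f x * ces m.coeff n x) atTop (𝓝 0) := by
  have hu : ∀ σ, Tendsto (fun k : ℕ => pr f (a k σ)) atTop (𝓝 0) := fun σ => by
    simp only [pr_a]
    rw [← Nat.cofinite_eq_atTop]
    exact hf.comp (Function.Injective.tendsto_cofinite fun i j h => by simpa using h)
  have h1 : Tendsto (fun k : ℕ => pr f (V ^ (k + 1))) atTop (𝓝 0) := by
    simp only [V_pow]
    exact (hu 1).comp (tendsto_add_atTop_nat 1)
  have h2 : Tendsto (fun k : ℕ => pr f (V ^ k * N)) atTop (𝓝 0) := by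
    simp only [VN, map_add, map_sub]
    simpa using (((hu t).add (hu (t * s))).sub (hu (s * t))).sub (hu (s * t * s))
  have h3 := (h1.cesaro_smul.add (h2.sub h2.cesaro_smul))
  simp only [sub_self, add_zero] at h3
  refine h3.congr' ?_
  filter_upwards [eventually_gt_atTop 0] with n hn
  have : (n : ℂ) ≠ 0 := by exact_mod_cast hn.ne'
  rw [ces_eq, pr_eq, m_sum]
  simp only [map_smul, map_add, map_sub, map_sum, smul_eq_mul, Complex.real_smul]
  push_cast
  field_simp

lemma val (n : ℕ) (hn : 0 < n) : ces m.coeff n (Multiplicative.ofAdd (n : ℤ), t) = 1 := by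
  classical
  have h0 : (n : ℂ) ≠ 0 := by exact_mod_cast hn.ne'
  have e : ∀ x : A, x.coeff (Multiplicative.ofAdd (n : ℤ), t) =
      pr (Pi.single (Multiplicative.ofAdd (n : ℤ), t) 1) x := fun x => by
    rw [← pr_eq, tsum_eq_single (Multiplicative.ofAdd (n : ℤ), t) fun b hb => by simp [hb]]
    simp
  have c1 : (1 : Equiv.Perm (Fin 3)) ≠ t := by decide
  have c2 : t * s ≠ t := by decide
  have c3 : s * t ≠ t := by decide
  have c4 : s * t * s ≠ t := by decide
  rw [ces_eq, e, m_sum]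
  simp only [map_smul, map_add, map_sub, map_sum, smul_eq_mul, VN]
  simp only [V_pow, pr_a]
  rw [Finset.sum_eq_zero fun k _ => by simp [c1], Finset.sum_eq_zero fun k hk => by
    have := (Finset.mem_range.1 hk).ne
    simp [this]]
  simp [c2, c3, c4, h0]

theorem result : ∃ (G : Type) (_ : Group G) (_ : Countable G) (μ : G → ℂ),
    (Function.support μ).Finite ∧ VagueErgodic μ ∧
    ∀ (p : ℝ≥0∞) [Fact (1 ≤ p)], p ≠ ∞ → HasConv μ p ∧ NotME μ p := by
  classical
  refine ⟨G, inferInstance, inferInstance, m.coeff, m.coeff.hasFiniteSupport,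
    ⟨0, by simp, fun f hf => by simpa using vag f hf⟩, fun p hp hp' => ?_⟩
  have h0 : p ≠ 0 := (zero_lt_one.trans_le hp.out).ne'
  have hq : 0 < p.toReal := ENNReal.toReal_pos h0 hp'
  refine ⟨⟨∑ y ∈ m.coeff.support,
    m.coeff y • (re p hq (Equiv.mulLeft y⁻¹)).toContinuousLinearMap, fun f x => ?_⟩, ?_⟩
  · rw [conv, tsum_eq_sum (s := m.coeff.support) fun b hb => by
      rw [Finsupp.notMem_support_iff.1 hb, zero_mul], ContinuousLinearMap.sum_apply,
      lp.coeFn_sum, Finset.sum_apply]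
    rfl
  · rintro T hT ⟨P, hP⟩
    set d : lp (fun _ : G => ℂ) p := lp.single p 1 1
    have hd : ∀ k : ℕ, ⇑((T ^ k) d) = (m ^ k).coeff := fun k => by
      induction k with
      | zero =>
        funext x
        simp [d, MonoidAlgebra.one_def, lp.single_apply, Pi.single_apply, Finsupp.single_apply,
          eq_comm]
      | succ k ih =>
        funext x
        rw [pow_succ', ContinuousLinearMap.mul_apply, hT, ih, conv_eq, pow_succ']
    have hc : ∀ (n : ℕ) x,
        ((n : ℂ)⁻¹ • ∑ k ∈ Finset.range n, (T ^ (k + 1)) d) x = ces m.coeff n x := fun n x => by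
      rw [lp.coeFn_smul, lp.coeFn_sum, Pi.smul_apply, Finset.sum_apply]
      simp only [hd, ces, cpow_eq, smul_eq_mul]
    have hz : P d = 0 := by
      refine lp.ext (funext fun x => ?_)
      have h1 := ((lp.lipschitzWith_one_eval p x).continuous.tendsto _).comp (hP d)
      have h2 := vag (Pi.single x 1) (tendsto_const_nhds.congr' (by
        filter_upwards [(Set.finite_singleton x).compl_mem_cofinite] with y hy
        simp [show y ≠ x from hy]))
      refine tendsto_nhds_unique h1 (h2.congr fun n => ?_)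
      rw [tsum_eq_single x fun b hb => by simp [hb]]
      simp only [Function.comp, hc, Pi.single_eq_same, one_mul]
    have h1 := (hP d).norm
    rw [hz, norm_zero] at h1
    obtain ⟨n, hn, hn0⟩ := ((h1.eventually (gt_mem_nhds one_pos)).and (eventually_gt_atTop 0)).exists
    have h2 := lp.norm_apply_le_norm h0 ((n : ℂ)⁻¹ • ∑ k ∈ Finset.range n, (T ^ (k + 1)) d)
      (Multiplicative.ofAdd (n : ℤ), t)
    rw [hc, val n hn0, norm_one] at h2
    linarith

end Pool.Agent.Results.MP_ec348e_an.Example
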